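import Pool.Agent.P.MP_d589a8_al.Lie.CMain

namespace Pool.Agent.Results.MP_d589a8_al.ClassicalGirth

/-- The block matrix `[[1, B], [0, 1]] ⊕ 1_k`. -/
def upper {r : ℕ} (k : ℕ) {F : Type} [Field F] (B : Matrix (Fin r) (Fin r) F) :
    Matrix ((Fin r ⊕ Fin r) ⊕ Fin k) ((Fin r ⊕ Fin r) ⊕ Fin k) F :=
  Matrix.fromBlocks (Matrix.fromBlocks 1 B 0 1) 0 0 1

/-- The block matrix `[[1, 0], [B, 1]] ⊕ 1_k`. -/
def lower {r : ℕ} (k : ℕ) {F : Type} [Field F] (B : Matrix (Fin r) (Fin r) F) :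
    Matrix ((Fin r ⊕ Fin r) ⊕ Fin k) ((Fin r ⊕ Fin r) ⊕ Fin k) F :=
  Matrix.fromBlocks (Matrix.fromBlocks 1 0 B 1) 0 0 1

/-- The subgroup `G` of `PGL` contains the class of every invertible matrix equal to `M`. -/
def HasClass {ι F : Type} [Fintype ι] [DecidableEq ι] [Field F]
    (G : Subgroup (Matrix.ProjGenLinGroup ι F)) (M : Matrix ι ι F) : Prop :=
  ∀ g : Matrix.GeneralLinearGroup ι F, g.val = M → Matrix.ProjGenLinGroup.mk g ∈ G

/-- The number of `m`-tuples in `G` that satisfy a nontrivial relation of reduced length `< L`. -/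
noncomputable def shortCount (m : ℕ) (G : Type) [Group G] (L : ℝ) : ℕ :=
  Nat.card {g : Fin m → G //
    ∃ w : FreeGroup (Fin m), w ≠ 1 ∧ (w.norm : ℝ) < L ∧ FreeGroup.lift g w = 1}

/-- Let `G` be any subgroup of `PGL_{2r+k}(F)`, `r ≥ 8`, `k ≤ 2`, that contains the classes of the
upper and lower block-unipotent matrices with off-diagonal block `A + η A^*`. As `|G| → ∞`, the
proportion of `m`-tuples in `G` that satisfy a nontrivial relation of reduced length
`< c r log (2 + q₀ / r)` tends to `0`; `q₀` is the number of fixed points of the involution. -/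
theorem result :
    ∀ m : ℕ, 2 ≤ m → ∃ c : ℝ, 0 < c ∧ ∀ ε : ℝ, 0 < ε → ∃ N : ℕ,
      ∀ (r k : ℕ) (F : Type) [Field F] [Finite F] (σ : F →+* F) (η : F)
        (G : Subgroup (Matrix.ProjGenLinGroup ((Fin r ⊕ Fin r) ⊕ Fin k) F)),
        8 ≤ r → k ≤ 2 → (∀ a, σ (σ a) = a) → η ≠ 0 →
        (∀ A : Matrix (Fin r) (Fin r) F, HasClass G (upper k (A + η • (A.map σ).transpose))) →
        (∀ A : Matrix (Fin r) (Fin r) F, HasClass G (lower k (A + η • (A.map σ).transpose))) →
        N ≤ Nat.card G →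
        (shortCount m G (c * r * Real.log (2 + (Nat.card {a : F // σ a = a} : ℝ) / r)) : ℝ) ≤
          ε * (Nat.card G : ℝ) ^ m :=
  _root_.LieGirth.cl_main

end Pool.Agent.Results.MP_d589a8_al.ClassicalGirth
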