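import Pool.Agent.P.MP_d589a8_al.Gw.All

namespace Pool.Agent.Results.MP_d589a8_al.NearLinearGirth

/-- For every `η > 0` there are `C` and `n₀` such that for `m ≥ 2`, `n ≥ n₀` and every `R` with
`n` at most the tower of `R` twos, for all but an `η`-fraction of the `x` in `Alt(n)`, every
`m`-tuple in `Alt(n)` containing `x` satisfies a nontrivial relation of length at most
`C 3^R n`. -/
theorem result :
    ∀ η : ℝ, 0 < η → ∃ C n₀ : ℕ, ∀ m : ℕ, 2 ≤ m → ∀ n : ℕ, n₀ ≤ n →
      ∀ R : ℕ, n ≤ (fun t : ℕ => 2 ^ t)^[R] 1 →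
        (Nat.card {x : alternatingGroup (Fin n) //
            ∃ g : Fin m → alternatingGroup (Fin n), x ∈ Set.range g ∧
              ∀ w : FreeGroup (Fin m), w ≠ 1 → w.norm ≤ C * 3 ^ R * n →
                FreeGroup.lift g w ≠ 1} : ℝ) ≤
          η * (Nat.card (alternatingGroup (Fin n)) : ℝ) :=
  Pool.Agent.P.MP_d589a8_al.Gz.all_MAINB

end Pool.Agent.Results.MP_d589a8_al.NearLinearGirth
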